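import Pool.Agent.H12.Sine

/-! The `sin (1/x)` continuum satisfies condition (S) hereditarily and is not arcwise connected. -/

open Topology Filter Set Real

namespace Pool.Agent.Results.MP_a3a891_gt.Counter
open Pool.Agent.H12.Sine

variable {Y : Type} [MetricSpace Y]

/-- A continuum inside a metric space. -/
def IsContinuum (C : Set Y) : Prop := IsCompact C ∧ IsConnected C

/-- The local separating points of the subspace `C`. -/
def LocSep (C : Set Y) : Set Y :=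
  {p | p ∈ C ∧ ∃ V : Set Y, IsOpen V ∧ p ∈ V ∧
    ¬ IsPreconnected (connectedComponentIn (V ∩ C) p \ {p})}

/-- A strong form of condition (S): `L(C)` is not even contained in a countable union of pairwise
disjoint closed proper subsets of `C`. -/
def CondS (C : Set Y) : Prop :=
  ¬ ∃ (I : Type) (_ : Countable I) (F : I → Set Y), Pairwise (fun i j => Disjoint (F i) (F j)) ∧
    (∀ i, F i ⊆ C ∧ IsClosed (F i) ∧ F i ≠ C) ∧ LocSep C ⊆ ⋃ i, F i

/-- Any two distinct points are the endpoints of an arc in `A`. -/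
def ArcConn (A : Set Y) : Prop :=
  ∀ x ∈ A, ∀ y ∈ A, x ≠ y → ∃ γ : unitInterval → Y, Continuous γ ∧ Function.Injective γ ∧
    γ 0 = x ∧ γ 1 = y ∧ range γ ⊆ A

lemma condS_of (C : Set Y) (γ : ℝ → Y) (a b : ℝ) (hab : a < b) (hγ : ContinuousOn γ (Ioo a b))
    (h1 : ∀ t ∈ Ioo a b, γ t ∈ LocSep C) (h2 : C ⊆ closure (γ '' Ioo a b)) : CondS C := by
  rintro ⟨I, _, F, hd, hF, hL⟩
  have : ConnectedSpace (Ioo a b) := isConnected_iff_connectedSpace.mp (isConnected_Ioo hab)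
  have : LocallyCompactSpace (Ioo a b) := isOpen_Ioo.locallyCompactSpace
  have : LocallyConnectedSpace (Ioo a b) := isOpen_Ioo.locallyConnectedSpace
  obtain ⟨i, hi⟩ := sierpinski (Y := Ioo a b) (fun i => (fun t : Ioo a b => γ t) ⁻¹' F i)
    (fun i => (hF i).2.1.preimage hγ.domRestrict) (fun i j hij => (hd hij).preimage _)
    (fun t => by obtain ⟨i, hi⟩ := mem_iUnion.mp (hL (h1 t t.2)); exact ⟨i, hi⟩)
  refine (hF i).2.2 ((hF i).1.antisymm (h2.trans (closure_minimal ?_ (hF i).2.1)))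
  rintro _ ⟨t, ht, rfl⟩
  exact (show (⟨t, ht⟩ : Ioo a b) ∈ (fun t : Ioo a b => γ t) ⁻¹' F i from hi ▸ mem_univ _)

lemma cut (C : Set Y) (hC : IsPreconnected C) (f : Y → ℝ) (hf : Continuous f) (p : Y) (hp : p ∈ C)
    (a b : ℝ) (ha : a ∈ f '' C) (hb : b ∈ f '' C) (h : f p ∈ Ioo a b)
    (hu : ∀ q ∈ C, f q = f p → q = p) : p ∈ LocSep C := by
  refine ⟨hp, univ, isOpen_univ, trivial, fun hc => ?_⟩
  rw [univ_inter, hC.connectedComponentIn hp] at hc
  obtain ⟨u, hu1, rfl⟩ := ha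
  obtain ⟨v, hv1, rfl⟩ := hb
  have := (hc.image f hf.continuousOn).Icc_subset
    ⟨u, ⟨hu1, fun e => h.1.ne (by rw [mem_singleton_iff.mp e])⟩, rfl⟩
    ⟨v, ⟨hv1, fun e => h.2.ne' (by rw [mem_singleton_iff.mp e])⟩, rfl⟩
  obtain ⟨q, hq, e⟩ := this ⟨h.1.le, h.2.le⟩
  exact hq.2 (hu q hq.1 e)

lemma T_nonneg {q : ℝ × ℝ} (h : q ∈ T) : 0 ≤ q.1 ∧ q.2 ∈ Icc (-1 : ℝ) 1 := by
  rcases h with ⟨x, hx, rfl⟩ | ⟨y, hy, rfl⟩
  · exact ⟨le_of_lt hx, sin_mem_Icc _⟩
  · exact ⟨le_rfl, hy⟩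

lemma approx {q : ℝ × ℝ} (hq : q ∈ T) {a b : ℝ} (ha : 0 ≤ a) (hab : a < b) (h : q.1 ∈ Icc a b) :
    q ∈ closure ((fun x : ℝ => (x, sin x⁻¹)) '' Ioo a b) := by
  rcases (T_nonneg hq).1.eq_or_lt with h0 | h0
  · have ha0 : a = 0 := le_antisymm (h0 ▸ h.1) ha
    subst ha0
    have h1 : Tendsto (fun n => (xSeq q.2 n, q.2)) atTop (𝓝 q) := by
      have e : q = (0, q.2) := Prod.ext h0.symm rfl
      have := (xSeq_tendsto q.2).prodMk_nhds (tendsto_const_nhds (x := q.2))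
      rwa [← e] at this
    refine mem_closure_of_tendsto h1 ?_
    filter_upwards [(xSeq_tendsto q.2).eventually (gt_mem_nhds hab)] with n hn
    exact ⟨_, ⟨xSeq_pos _ _, hn⟩, Prod.ext rfl (sin_inv_xSeq (T_nonneg hq).2 n)⟩
  · have e : q = (q.1, sin q.1⁻¹) := Prod.ext rfl (mem_S_of_x_pos h0 hq)
    rw [e]
    refine mem_closure_image (f := fun x : ℝ => (x, sin x⁻¹)) ?_ (by rwa [closure_Ioo hab.ne])
    exact continuousAt_id.prodMk (continuous_sin.continuousAt.comp (continuousAt_inv₀ h0.ne'))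

lemma cont_graph {a b : ℝ} (ha : 0 ≤ a) :
    ContinuousOn (fun x : ℝ => (x, sin x⁻¹)) (Ioo a b) := fun x hx =>
  (continuousAt_id.prodMk (continuous_sin.continuousAt.comp
    (continuousAt_inv₀ (ha.trans_lt hx.1).ne'))).continuousWithinAt

lemma condS_sub (C : Set (ℝ × ℝ)) (hT : C ⊆ T) (hC : IsContinuum C) (hn : C.Nontrivial) :
    CondS C := by
  have hx := eq_Icc_of_connected_compact (hC.2.image _ continuous_fst.continuousOn)
    (hC.1.image continuous_fst)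
  have hy := eq_Icc_of_connected_compact (hC.2.image _ continuous_snd.continuousOn)
    (hC.1.image continuous_snd)
  generalize sInf (Prod.fst '' C) = a, sSup (Prod.fst '' C) = b at hx
  generalize sInf (Prod.snd '' C) = c, sSup (Prod.snd '' C) = d at hy
  obtain ⟨u, hu, v, hv, huv⟩ := hn
  have mx : ∀ q ∈ C, q.1 ∈ Icc a b := fun q hq => hx ▸ mem_image_of_mem _ hq
  have my : ∀ q ∈ C, q.2 ∈ Icc c d := fun q hq => hy ▸ mem_image_of_mem _ hq
  have hab : a ≤ b := (mx u hu).1.trans (mx u hu).2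
  have hcd : c ≤ d := (my u hu).1.trans (my u hu).2
  have ha : a ∈ Prod.fst '' C := hx ▸ left_mem_Icc.mpr hab
  have hb : b ∈ Prod.fst '' C := hx ▸ right_mem_Icc.mpr hab
  have ha0 : 0 ≤ a := by obtain ⟨q, hq, rfl⟩ := ha; exact (T_nonneg (hT hq)).1
  rcases hab.eq_or_lt with rfl | hab
  · have e : ∀ q ∈ C, q.1 = a := fun q hq => le_antisymm (mx q hq).2 (mx q hq).1
    have hcd' : c < d := by
      refine lt_of_le_of_ne hcd fun h => huv (Prod.ext ((e u hu).trans (e v hv).symm) ?_)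
      subst h
      exact (le_antisymm (my u hu).2 (my u hu).1).trans (le_antisymm (my v hv).2 (my v hv).1).symm
    refine condS_of C (fun t => (a, t)) c d hcd' (by fun_prop) (fun t ht => ?_) fun q hq => ?_
    · obtain ⟨q, hq, hqt⟩ : t ∈ Prod.snd '' C := hy ▸ Ioo_subset_Icc_self ht
      have hq' : (a, t) ∈ C := by rwa [← hqt, ← e q hq]
      exact cut C hC.2.2 Prod.snd continuous_snd _ hq' c d (hy ▸ left_mem_Icc.mpr hcd)
        (hy ▸ right_mem_Icc.mpr hcd) ht fun r hr h => Prod.ext (e r hr) h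
    · have : q = (a, q.2) := Prod.ext (e q hq) rfl
      rw [this]
      exact mem_closure_image (f := fun t : ℝ => (a, t)) (by fun_prop)
        (by rw [closure_Ioo hcd'.ne]; exact my q hq)
  · refine condS_of C _ a b hab (cont_graph ha0) (fun t ht => ?_) fun q hq =>
      approx (hT hq) ha0 hab (mx q hq)
    have key : ∀ q ∈ C, q.1 = t → q = (t, sin t⁻¹) := fun q hq h =>
      Prod.ext h (h ▸ mem_S_of_x_pos (h ▸ ha0.trans_lt ht.1) (hT hq))
    obtain ⟨q, hq, hqt⟩ : t ∈ Prod.fst '' C := hx ▸ Ioo_subset_Icc_self ht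
    exact cut C hC.2.2 Prod.fst continuous_fst _ (key q hq hqt ▸ hq) a b ha hb ht key

theorem result : ∃ X : Set (ℝ × ℝ), IsContinuum X ∧
    (∀ C ⊆ X, IsContinuum C → C.Nontrivial → CondS C) ∧
    ∃ A ⊆ X, IsConnected A ∧ ¬ ArcConn A := by
  let X : Set (ℝ × ℝ) := closure ((fun x : ℝ => (x, sin x⁻¹)) '' Ioo 0 1)
  have hT : X ⊆ T := by
    rw [← closure_S]
    exact closure_mono (image_mono fun x hx => hx.1)
  have hc : IsConnected X := ((isConnected_Ioo one_pos).image _ (cont_graph le_rfl)).closure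
  have hk : IsCompact X := by
    refine (isCompact_Icc (a := ((0 : ℝ), (-1 : ℝ))) (b := (1, 1))).of_isClosed_subset
      isClosed_closure (closure_minimal ?_ isClosed_Icc)
    rintro _ ⟨x, hx, rfl⟩
    exact ⟨⟨hx.1.le, neg_one_le_sin _⟩, ⟨hx.2.le, sin_le_one _⟩⟩
  refine ⟨X, ⟨hk, hc⟩, fun C hC => condS_sub C (hC.trans hT), X, subset_rfl, hc, fun h => ?_⟩
  obtain ⟨γ, h1, -, h2, h3, h4⟩ := h (0, 0) (approx zero_mem_T le_rfl one_pos (by simp)) w
    (approx w_mem_T le_rfl one_pos (by simp [w])) (by simp [w])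
  exact not_joined ⟨⟨⟨γ, h1⟩, h2, h3⟩, fun t => hT (h4 ⟨t, rfl⟩)⟩

end Pool.Agent.Results.MP_a3a891_gt.Counter
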